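import Pool.Agent.H863R4.SlitMap

/-!
The conformal map of the upper half-plane onto the slit strip is quadratic at the tip.
-/

namespace Pool.Agent.R966.Tip

open Filter Topology Set Real Pool.Agent.H863R4

/-- the quadratic coefficient -/
noncomputable def kq (α β : ℝ) : ℝ := (α + β) ^ 3 / (2 * (α * β))

theorem logT {w : ℂ} (hw : ‖w‖ ≤ 1 / 2) :
    ‖Complex.log (1 + w) - (w - w ^ 2 / 2)‖ ≤ ‖w‖ ^ 3 := by
  have h := Complex.norm_log_sub_logTaylor_le 2 (z := w) (by linarith)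
  have e : Complex.logTaylor (2 + 1) w = w - w ^ 2 / 2 := by
    simp only [Complex.logTaylor_succ, Complex.logTaylor_zero]
    norm_num
    ring
  rw [e] at h
  refine h.trans ?_
  have h1 : (1 - ‖w‖)⁻¹ ≤ 2 := by
    rw [inv_le_comm₀ (by linarith) (by norm_num)]
    linarith
  have h2 : 0 ≤ ‖w‖ ^ 3 := by positivity
  have h3 : ‖w‖ ^ 3 * (1 - ‖w‖)⁻¹ ≤ ‖w‖ ^ 3 * 2 := mul_le_mul_of_nonneg_left h1 h2
  norm_num at h ⊢
  linarith

theorem sm_near {α β : ℝ} (hα : 0 < α) (hβ : 0 < β) {z : ℂ} (hz : 0 < z.im)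
    (h1 : ‖z - (α / (α + β) : ℝ)‖ ≤ α / (α + β) / 2)
    (h2 : ‖z - (α / (α + β) : ℝ)‖ ≤ β / (α + β) / 2) :
    ‖sm α β z - sm α β ((α / (α + β) : ℝ) : ℂ) + kq α β * (z - (α / (α + β) : ℝ)) ^ 2‖ ≤
      (α * (α / (α + β))⁻¹ ^ 3 + β * (β / (α + β))⁻¹ ^ 3) * ‖z - (α / (α + β) : ℝ)‖ ^ 3 := by
  have hab : 0 < α + β := add_pos hα hβ
  set x : ℝ := α / (α + β) with hx
  set y : ℝ := β / (α + β) with hy
  have x0 : 0 < x := div_pos hα hab
  have y0 : 0 < y := div_pos hβ hab
  have xy : x + y = 1 := by rw [hx, hy]; field_simp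
  have xc : (x : ℂ) ≠ 0 := by exact_mod_cast x0.ne'
  have yc : (y : ℂ) ≠ 0 := by exact_mod_cast y0.ne'
  set d : ℂ := z - x with hd
  set w : ℂ := d / x with hw
  set v : ℂ := -d / y with hv
  have nw : ‖w‖ = x⁻¹ * ‖d‖ := by
    rw [hw, norm_div, Complex.norm_real, Real.norm_of_nonneg x0.le]
    field_simp
  have nv : ‖v‖ = y⁻¹ * ‖d‖ := by
    rw [hv, norm_div, norm_neg, Complex.norm_real, Real.norm_of_nonneg y0.le]
    field_simp
  have hw2 : ‖w‖ ≤ 1 / 2 := by
    rw [nw, inv_mul_le_iff₀ x0]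
    linarith
  have hv2 : ‖v‖ ≤ 1 / 2 := by
    rw [nv, inv_mul_le_iff₀ y0]
    linarith
  have t1 := logT hw2
  have t2 := logT hv2
  have ez : z = x * (1 + w) := by
    rw [hw, hd]
    field_simp
    ring
  have ew : (1 + w) ≠ 0 := by
    intro h
    have : ‖w‖ = 1 := by
      have : w = -1 := by linear_combination h
      rw [this, norm_neg, norm_one]
    linarith
  have ev : (1 + v) ≠ 0 := by
    intro h
    have : ‖v‖ = 1 := by
      have : v = -1 := by linear_combination h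
      rw [this, norm_neg, norm_one]
    linarith
  have l1 : Complex.log z = Complex.log x + Complex.log (1 + w) := by
    rw [ez, Complex.log_ofReal_mul x0 ew, Complex.ofReal_log x0.le]
  have xyc : (x : ℂ) + y = 1 := by exact_mod_cast xy
  have ez1 : z - 1 = y * (-(1 + v)) := by
    rw [hv]
    field_simp
    rw [hd]
    linear_combination xyc
  have imv : (1 + v).im < 0 := by
    have e1 : (1 + v).im = -(z.im) / y := by
      have e2 : (1 : ℂ) + v = 1 + ((1 / y : ℝ) : ℂ) * (-d) := by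
        rw [hv]; push_cast; ring
      rw [e2, hd]
      simp
      ring
    rw [e1]
    exact div_neg_of_neg_of_pos (by linarith) y0
  have ln : Complex.log (-(1 + v)) = Complex.log (1 + v) + π * Complex.I := by
    apply Complex.ext
    · rw [Complex.log_re, norm_neg, Complex.add_re, Complex.log_re]
      simp
    · rw [Complex.log_im, Complex.arg_neg_eq_arg_add_pi_of_im_neg imv]
      simp [Complex.log_im]
  have l2 : Complex.log (z - 1) = Complex.log y + (Complex.log (1 + v) + π * Complex.I) := by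
    rw [ez1, Complex.log_ofReal_mul y0 (neg_ne_zero.mpr ev), Complex.ofReal_log y0.le, ln]
  have l3 : Complex.log ((x : ℂ) - 1) = Complex.log y + π * Complex.I := by
    have e1 : (x : ℂ) - 1 = (y : ℂ) * (-1) := by
      linear_combination xyc
    rw [e1, Complex.log_ofReal_mul y0 (by norm_num), Complex.log_neg_one, Complex.ofReal_log y0.le]
  have e0 : sm α β z - sm α β (x : ℂ) = α * Complex.log (1 + w) + β * Complex.log (1 + v) := by
    unfold sm
    rw [l1, l2, l3]
    ring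
  have k0 : (kq α β : ℂ) * d ^ 2 = α * (w ^ 2 / 2) + β * (v ^ 2 / 2) := by
    have e1 : kq α β = α * ((1 / x) ^ 2 / 2) + β * ((1 / y) ^ 2 / 2) := by
      rw [hx, hy]
      unfold kq
      field_simp
      ring
    rw [e1, hw, hv]
    push_cast
    ring
  have k1 : (α : ℂ) * w + β * v = 0 := by
    have e1 : α / x = β / y := by
      rw [hx, hy]
      field_simp
    have e2 : (α : ℂ) / x = β / y := by exact_mod_cast e1
    rw [hw, hv]
    linear_combination d * e2
  have e3 : sm α β z - sm α β (x : ℂ) + kq α β * d ^ 2 =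
      α * (Complex.log (1 + w) - (w - w ^ 2 / 2)) + β * (Complex.log (1 + v) - (v - v ^ 2 / 2)) := by
    rw [e0, k0]
    linear_combination k1
  rw [e3]
  refine (norm_add_le _ _).trans ?_
  rw [norm_mul, norm_mul, Complex.norm_real, Complex.norm_real, Real.norm_of_nonneg hα.le,
    Real.norm_of_nonneg hβ.le]
  have a1 := mul_le_mul_of_nonneg_left t1 hα.le
  have a2 := mul_le_mul_of_nonneg_left t2 hβ.le
  rw [nw] at a1
  rw [nv] at a2
  calc _ ≤ α * (x⁻¹ * ‖d‖) ^ 3 + β * (y⁻¹ * ‖d‖) ^ 3 := add_le_add a1 a2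
    _ = _ := by ring

/-- the map is quadratic at the tip -/
theorem sm_quad {α β : ℝ} (hα : 0 < α) (hβ : 0 < β) :
    Tendsto (fun z : ℂ => ‖sm α β z - sm α β ((α / (α + β) : ℝ) : ℂ)‖ /
      ‖z - (α / (α + β) : ℝ)‖ ^ 2) (𝓝[{z : ℂ | 0 < z.im}] ((α / (α + β) : ℝ) : ℂ))
      (𝓝 (kq α β)) := by
  have hab : 0 < α + β := add_pos hα hβ
  set x : ℝ := α / (α + β) with hx
  have x0 : 0 < x := div_pos hα hab
  have y0 : 0 < β / (α + β) := div_pos hβ hab
  set K : ℝ := α * (α / (α + β))⁻¹ ^ 3 + β * (β / (α + β))⁻¹ ^ 3 with hK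
  have kp : 0 < kq α β := by unfold kq; positivity
  have hd : Tendsto (fun z : ℂ => ‖z - x‖) (𝓝[{z : ℂ | 0 < z.im}] (x : ℂ)) (𝓝 0) := by
    have : Tendsto (fun z : ℂ => ‖z - x‖) (𝓝 (x : ℂ)) (𝓝 ‖(x : ℂ) - x‖) :=
      (continuous_id.sub continuous_const).norm.tendsto _
    rw [sub_self, norm_zero] at this
    exact this.mono_left nhdsWithin_le_nhds
  rw [tendsto_iff_norm_sub_tendsto_zero]
  have hb : Tendsto (fun z : ℂ => K * ‖z - x‖) (𝓝[{z : ℂ | 0 < z.im}] (x : ℂ)) (𝓝 0) := by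
    have := hd.const_mul K
    rwa [mul_zero] at this
  refine squeeze_zero' (Eventually.of_forall fun z => norm_nonneg _) ?_ hb
  have ev1 := hd.eventually (ge_mem_nhds (show (0:ℝ) < x / 2 by linarith))
  have ev2 := hd.eventually (ge_mem_nhds (show (0:ℝ) < β / (α + β) / 2 by linarith))
  filter_upwards [ev1, ev2, self_mem_nhdsWithin] with z h1 h2 hz
  have hz : 0 < z.im := hz
  have h := sm_near hα hβ hz h1 h2
  rw [← hx, ← hK] at h
  have dz : 0 < ‖z - x‖ := by
    rw [norm_pos_iff, sub_ne_zero]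
    rintro rfl
    simp at hz
  have e1 : ‖sm α β z - sm α β (x : ℂ)‖ / ‖z - x‖ ^ 2 - kq α β =
      (‖sm α β z - sm α β (x : ℂ)‖ - ‖-(kq α β * (z - x) ^ 2 : ℂ)‖) / ‖z - x‖ ^ 2 := by
    rw [norm_neg, norm_mul, norm_pow, Complex.norm_real, Real.norm_of_nonneg kp.le]
    field_simp
  rw [e1, norm_div, Real.norm_eq_abs, Real.norm_of_nonneg (by positivity : 0 ≤ ‖z - x‖ ^ 2),
    div_le_iff₀ (by positivity)]
  refine (abs_norm_sub_norm_le _ _).trans ?_
  rw [sub_neg_eq_add]
  refine h.trans (le_of_eq ?_)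
  ring

end Pool.Agent.R966.Tip
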