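import Pool.Agent.H981R2.TP.Plane2
import Pool.Agent.H863R4.Package
import Pool.Agent.R966.Tip.Map

/-!
The tip one-point function of the slit strips: scaling limit and conformal covariance.
-/

namespace Pool.Agent.R966.Tip

open Filter Topology Set Real Pool.Agent.H863R4 MeasureTheory
open Pool.Agent.H981R2.TP Pool.Agent.H981R2.TP.PL Pool.Agent.H988R2.Perc

/-- the scaling limit -/
theorem strip_scale {α β : ℝ} (hα : 0 < α) (hβ : 0 < β) (δ : ℕ → ℝ) (p r : ℕ → ℕ)
    (hδ : ∀ n, 0 < δ n) (hδ0 : Tendsto δ atTop (𝓝 0))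
    (hp : Tendsto (fun n => δ n * p n) atTop (𝓝 α)) (hr : Tendsto (fun n => δ n * r n) atTop (𝓝 β)) :
    Tendsto (fun n => perc.real (StripArm (p n) (r n)) * (δ n)^(-((1:ℝ)/6))) atTop
      (𝓝 (√π / Real.Gamma (1/3) * (α / (β * (α + β)))^((1:ℝ)/6))) := by
  have hinv : Tendsto (fun n => (δ n)⁻¹) atTop atTop :=
    (tendsto_nhdsWithin_iff.mpr ⟨hδ0, Eventually.of_forall hδ⟩).inv_tendsto_nhdsGT_zero
  have tp : Tendsto p atTop atTop := by
    rw [← tendsto_natCast_atTop_iff (R := ℝ)]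
    refine (hinv.atTop_mul_pos hα hp).congr fun n => ?_
    rw [← mul_assoc, inv_mul_cancel₀ (hδ n).ne', one_mul]
  have tr : Tendsto r atTop atTop := by
    rw [← tendsto_natCast_atTop_iff (R := ℝ)]
    refine (hinv.atTop_mul_pos hβ hr).congr fun n => ?_
    rw [← mul_assoc, inv_mul_cancel₀ (hδ n).ne', one_mul]
  have h1 := strip_asymp p r tp tr
  have hab : 0 < α + β := add_pos hα hβ
  have h2 : Tendsto (fun n => ((δ n * p n) / ((δ n * r n) * (δ n * p n + δ n * r n)))^((1:ℝ)/6)) atTop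
      (𝓝 ((α / (β * (α + β)))^((1:ℝ)/6))) :=
    (hp.div (hr.mul (hp.add hr)) (by positivity)).rpow_const (Or.inr (by norm_num))
  refine (h1.mul h2).congr' ?_
  filter_upwards [tp.eventually_gt_atTop 0, tr.eventually_gt_atTop 0] with n n1 n2
  have q1 : (0:ℝ) < p n := by exact_mod_cast n1
  have q2 : (0:ℝ) < r n := by exact_mod_cast n2
  have q3 := hδ n
  rw [mul_assoc, ← Real.mul_rpow (by positivity) (by positivity), Real.rpow_neg q3.le,
    ← Real.inv_rpow q3.le]
  congr 2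
  field_simp

/-- the limit in terms of the conformal map -/
theorem limit_eq {α β : ℝ} (hα : 0 < α) (hβ : 0 < β) :
    √π / Real.Gamma (1/3) * (α / (β * (α + β)))^((1:ℝ)/6) =
      √π / (Real.Gamma (1/3) * (2 * π)^((1:ℝ)/6)) * (kq α β / π)^(-((1:ℝ)/6)) *
        (1 - α / (α + β))^(-((1:ℝ)/3)) := by
  have hab : 0 < α + β := add_pos hα hβ
  have e1 : 1 - α / (α + β) = β / (α + β) := by field_simp; ring
  have g0 : Real.Gamma (1/3) ≠ 0 := (Real.Gamma_pos_of_pos (by norm_num)).ne'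
  have hy : 0 < β / (α + β) := div_pos hβ hab
  have hk : 0 < kq α β := by unfold kq; positivity
  rw [e1]
  have e2 : (β / (α + β))^(-((1:ℝ)/3)) = (((β / (α + β))^2)⁻¹)^((1:ℝ)/6) := by
    rw [← Real.rpow_natCast, ← Real.rpow_neg hy.le, ← Real.rpow_mul hy.le]
    norm_num
  have e3 : (kq α β / π)^(-((1:ℝ)/6)) = (π / kq α β)^((1:ℝ)/6) := by
    rw [Real.rpow_neg (by positivity), ← Real.inv_rpow (by positivity), inv_div]
  rw [e2, e3]
  have p2 : (0:ℝ) < (2 * π)^((1:ℝ)/6) := by positivity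
  have e4 : (α / (β * (α + β)))^((1:ℝ)/6) = (2 * π)^(-((1:ℝ)/6)) *
      ((π / kq α β)^((1:ℝ)/6) * (((β / (α + β))^2)⁻¹)^((1:ℝ)/6)) := by
    rw [Real.rpow_neg (by positivity), ← Real.inv_rpow (by positivity),
      ← Real.mul_rpow (by positivity) (by positivity), ← Real.mul_rpow (by positivity) (by positivity)]
    congr 1
    unfold kq
    have := pi_pos
    field_simp
  rw [e4, Real.rpow_neg (by positivity)]
  field_simp

/-- the uniformizing map is quadratic at the tip -/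
theorem phi_quad {α β : ℝ} (hα : 0 < α) (hβ : 0 < β) :
    Tendsto (fun z : ℂ => ‖phi α β z‖ / ‖z - (α / (α + β) : ℝ)‖ ^ 2)
      (𝓝[{z : ℂ | 0 < z.im}] ((α / (α + β) : ℝ) : ℂ)) (𝓝 (kq α β / π)) := by
  refine ((sm_quad hα hβ).div_const π).congr fun z => ?_
  have hp := pi_pos
  have h0 : (starRingEnd ℂ) (phi α β ((α / (α + β) : ℝ) : ℂ)) = 0 := by
    rw [(uniformizes hα hβ).tip, map_zero]
  have h1 : ‖phi α β z‖ = ‖sm α β z - sm α β ((α / (α + β) : ℝ) : ℂ)‖ / π := by
    rw [← RCLike.norm_conj (phi α β z)]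
    have e : (starRingEnd ℂ) (phi α β z) = Complex.I / π *
        (sm α β z - sm α β ((α / (α + β) : ℝ) : ℂ)) := by
      have e1 := conj_phi α β z
      have e2 := conj_phi α β ((α / (α + β) : ℝ) : ℂ)
      rw [h0] at e2
      rw [e1]
      linear_combination -e2
    rw [e, norm_mul, norm_div, Complex.norm_I, Complex.norm_real, Real.norm_of_nonneg hp.le]
    ring
  rw [h1]
  ring

end Pool.Agent.R966.Tip
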